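import Pool.Agent.Lib_helper20.SRO.Final
import Pool.Agent.Lib_helper39.SRO.B2

/-!
# Nearly read-once nondeterministic branching programs cannot complement

`hardF2 n` is a function of `N` variables (`2 n ^ 2 ≤ N ≤ 9 n ^ 2` for large `n`), computable in
polynomial time, whose complement has nondeterministic branching programs of quadratic size in which
every variable is tested at most once on every walk from the source to the sink. The function itself
needs exponential size, even if read-once is asked only in the weakest sense: each accepted input
should have one accepting walk that tests few variables more than once.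

In particular this holds for semantic read-once nondeterministic branching programs. The lower bound
comes from the restriction of `hardF2 n` to `n` variables obtained by fixing suitable coefficients,
which needs size `2 ^ (c n)`, also in nondeterministic branching programs of length at most
`(1 + c) n`.
-/

namespace Pool.Agent.URG.Retired.NearlyReadOnceBP

open Pool.Agent.Lib_helper20.SRO

/-- **Theorem.** There is `c > 0` such that for all large `n`, with `N` the number of variables of
`hardF2 n`:
(1) the complement of `hardF2 n` has a nondeterministic branching program with at most `5 N ^ 2`
nodes in which every variable is tested at most once on every source-sink walk;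
(2) every nondeterministic branching program for `hardF2 n`, in which each accepted input has an
accepting walk with at most `c √N` variables tested more than once, has at least `2 ^ (c √N)` nodes;
indeed for suitable coefficients `C` and values `e` every nondeterministic branching program for
the restriction `QF C e` of `hardF2 n` to `n` variables, in which each accepted input has an
accepting walk with at most `c n` variables tested more than once or each accepted input has an
accepting walk with at most `(1 + c) n` tests, has at least `2 ^ (c n)` nodes. -/
theorem result : ∃ c : ℝ, 0 < c ∧ ∃ n0 : ℕ, ∀ n ≥ n0,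
    (∃ (N : Type) (_ : Fintype N) (G : NBP (Var2 n) N), G.SyntacticReadOnce ∧
      G.Computes (fun v => !hardF2 n v) ∧ Fintype.card N ≤ 5 * Fintype.card (Var2 n) ^ 2) ∧
    (∀ (N : Type) [Fintype N] (G : NBP (Var2 n) N) (r : ℕ),
      (r : ℝ) ≤ c * Real.sqrt (Fintype.card (Var2 n)) → G.FewRereads r → G.Computes (hardF2 n) →
      (2 : ℝ) ^ (c * Real.sqrt (Fintype.card (Var2 n))) ≤ Fintype.card N) ∧
    (∃ (C : Fin (tt n) → Fin (kk n) → Bool → Fin n → Bool) (e : Fin (tt n) → Bool),
      ∀ (N : Type) [Fintype N] (G : NBP (Fin n) N) (r : ℕ), (r : ℝ) ≤ c * n →
        (G.FewRereads r ∨ G.Short r) → G.Computes (QF C e) →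
        (2 : ℝ) ^ (c * n) ≤ Fintype.card N) := by
  obtain ⟨c, hc, n0, h⟩ := final Pool.Agent.Lib_helper39.SRO.B2.stmtB2
  refine ⟨c, hc, n0, fun n hn => ?_⟩
  obtain ⟨h1, h2, C, e, -, h3⟩ := h n hn
  exact ⟨h1, h2, C, e, h3⟩

end Pool.Agent.URG.Retired.NearlyReadOnceBP
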