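import Pool.Agent.URG.Main

/-!
# Nearly read-once nondeterministic programs cannot complement: bound `2 ^ (c N)`

`goodA` is a function of `N` variables whose complement has nondeterministic branching programs of
polynomial size in which every variable is tested at most once on every walk from the source to the
sink. The function itself needs size `2 ^ (c N)`, even if read-once is asked only in the weakest
sense: each accepted input should have one accepting walk that tests at most `c N` variables more
than once, or one accepting walk with at most `(1 + c) N` tests. In particular this holds for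
semantic read-once nondeterministic branching programs. The same holds for nondeterministic machines
with a memory of `c N` bits and time `(1 + c) N`.
-/

set_option autoImplicit false

namespace Pool.Agent.Results.MP_a77cad_lc.NearlyReadOnceLinear

open Pool.Agent.URG
open Pool.Agent.HPM.Fn (Coord)
open Pool.Agent.Lib_helper20.SRO (NBP)

/-- **Theorem.** There are constants `c > 0`, `e`, `L`, `κ` such that for all large `n`, with `N` the
number of variables of `goodA`, `n L ≤ N ≤ 2 n L`:
(1) the complement of `goodA` has a nondeterministic branching program with at most `N ^ κ` nodes in
which every variable is tested at most once on every source-sink walk;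
(2) a nondeterministic branching program for `goodA`, in which each accepted input has an accepting
walk on which at most `c N` variables are tested more than once, or in which each accepted input has
an accepting walk with at most `(1 + c) N` tests, has at least `2 ^ (c N)` nodes;
(3) a nondeterministic machine that decides `goodA`, reads `s ≤ c N` bits at once and makes `T` steps,
`T s ≤ (1 + c) N`, has at least `2 ^ (c N)` states. -/
theorem result : ∃ c : ℝ, 0 < c ∧ ∃ e L κ n0 : ℕ, ∀ n ≥ n0, Nonempty (Coord (deg n e)) ∧
    ∀ (β : Coord (deg n e)) (N : ℕ), N = Fintype.card (VarA n e L) →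
    (n * L ≤ N ∧ N ≤ 2 * (n * L)) ∧
    (∃ (Q : Type) (_ : Fintype Q) (G : NBP (VarA n e L) Q), G.SyntacticReadOnce ∧
      G.Computes (fun v => !goodA β v) ∧ Fintype.card Q ≤ N ^ κ) ∧
    (∀ (Q : Type) [Fintype Q] (G : NBP (VarA n e L) Q) (r : ℕ), (r : ℝ) ≤ c * N →
      G.FewRereads r ∨ G.Short r → G.Computes (goodA β) →
      (2 : ℝ) ^ (c * N) ≤ Fintype.card Q) ∧
    (∀ (s b T : ℕ) (V : Type) [Fintype V], (s : ℝ) ≤ c * N → (T * s : ℝ) ≤ (1 + c) * N →
      InNPg s b (VarA n e L) V T (fun v => goodA β v = true) →
      (2 : ℝ) ^ (c * N) ≤ Fintype.card V) :=
  mainA

end Pool.Agent.Results.MP_a77cad_lc.NearlyReadOnceLinear
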