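import Pool.Agent.URG.Main

/-!
# PP is not in NP ∪ coNP for machines whose guesses may influence everything

The machines run in time `(1 + c) N` and have a memory of `c N` bits. The lower bound holds for
nondeterministic machines and branching programs without any restriction on the guesses: they may
influence the states and the bits that are read. Linearly many bits may be read twice or more.
-/

set_option autoImplicit false

namespace Pool.Agent.Results.MP_153864_lc.UnrestrictedGuesses

open Pool.Agent.URG
open Pool.Agent.HPM (DecOs)
open Pool.Agent.HPM.Fn (Coord)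
open Pool.Agent.Lib_helper20.SRO (NBP)
open Pool.Agent.UM (InPP)

/-- **Theorem.** There are constants `c > 0`, `e`, `L`, `κ` such that for all large `n`, with `N` the
number of variables of `goodF`, `n L ≤ N ≤ 2 n L`:
(1) a nondeterministic machine that decides `goodF` or its complement, reads `s ≤ c N` bits at once
and makes `T` steps, `T s ≤ (1 + c) N`, has at least `2 ^ (c N)` states;
(2) a nondeterministic branching program for `goodF` or its complement, in which each accepted input
has an accepting walk on which at most `c N` variables are tested more than once, or in which each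
accepted input has an accepting walk with at most `(1 + c) N` tests, has at least `2 ^ (c N)` nodes;
(3) `goodF` is in PP mode of deterministic machines with at most `N ^ κ` states, with `w` random bits,
`2 ^ w ≤ N ^ κ`, for every fixed schedule in which all bits are read. -/
theorem result : ∃ c : ℝ, 0 < c ∧ ∃ e L κ n0 : ℕ, ∀ n ≥ n0, Nonempty (Coord (deg n e)) ∧
    ∀ (β : Coord (deg n e)) (N : ℕ), N = Fintype.card (VarG n e L) →
    (n * L ≤ N ∧ N ≤ 2 * (n * L)) ∧
    (∀ (s b T : ℕ) (V : Type) [Fintype V], (s : ℝ) ≤ c * N → (T * s : ℝ) ≤ (1 + c) * N →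
      InNPg s b (VarG n e L) V T (fun v => goodF β v = true) ∨
        InNPg s b (VarG n e L) V T (fun v => goodF β v = false) →
      (2 : ℝ) ^ (c * N) ≤ Fintype.card V) ∧
    (∀ (Q : Type) [Fintype Q] (G : NBP (VarG n e L) Q) (r : ℕ), (r : ℝ) ≤ c * N →
      G.FewRereads r ∨ G.Short r →
      G.Computes (goodF β) ∨ G.Computes (fun v => !goodF β v) →
      (2 : ℝ) ^ (c * N) ≤ Fintype.card Q) ∧
    ∃ (V : Type) (_ : Fintype V) (w : ℕ), Fintype.card V ≤ N ^ κ ∧ 2 ^ w ≤ N ^ κ ∧
      ∀ (s T : ℕ) (σ : Fin T → Fin s → VarG n e L), (∀ i, ∃ t j, σ t j = i) →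
        InPP (DecOs s (VarG n e L) V T σ) w (fun v => goodF β v = true) :=
  main

end Pool.Agent.Results.MP_153864_lc.UnrestrictedGuesses
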